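import Pool.Agent.Q212.ZD5

/-!
# ZF proves that no forcing with the property `ccc₃` collapses the first uncountable ordinal

The definitions used in the statement are in `Pool.Agent.Q212.ZD4` (`IsPreorder`, `CCC3`,
`IsOmega1`, `IsCollapseName`, `IsCountable`), `Pool.Agent.H310R3.Cards` (functions, natural
numbers), `Pool.Agent.H525R3.Lang` (transitive submodels, generic filters, values of names),
`Pool.Agent.H635R2.Statement` (`ZF`) and `Pool.Agent.Helper672.SIK.Plain` (the language `LSet`,
`Mem`, `IsOrdPair`).

The proof: let `R q n a` say that `q` forces the value at `n` to be `a`, and suppose that `p₀`
forces that this is a function from `ω` onto `ω₁`. By `ccc₃`, the set `W p m` of the possible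
values at the numbers up to `m` below `p` is countable, so it has a countable order type. For
each `p` below `p₀` these order types are unbounded in `ω₁`. If all sets of possible values are
finite, then `ω₁` is countable. Otherwise there is an infinite countable antichain `(p k)` below
`p₀`. Let `f k` be least such that the order type of `W (p k) (f k)` is at least the one of
`W p₀ k`, and consider the conditions below some `p k` that decide the values up to `f k`. By
`ccc₃` the union of the sets `W (p k) (f k)` is countable, but its order type is at least the ones
of all `W p₀ k`; this is a contradiction. For generic extensions, the relation that `p` forces that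
the value of the name `ρ` is `x`, for `x` in the ground model is defined as a greatest fixed
point, and the truth lemma for it is proved by induction on membership.
-/

namespace Pool.Agent.Results.MP_6e04fb_lc.NoCollapse

open FirstOrder FirstOrder.Language
open Pool.Agent.Helper672.Plain (LSet)
open Pool.Agent.H635Amen (ZF)
open Pool.Agent.H525Emb (IsTrans IsGenericFilter IsValue)
open Pool.Agent.Q212.ZForce

universe u

/-- ZF proves that no forcing with the property `ccc₃` collapses the first uncountable ordinal.
First, in every model of ZF, if `(P, le)` is a preordered set with the property `ccc₃` and `w` is
the first uncountable ordinal, then there are no condition `p` and name `F` for a function from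
the natural numbers onto `w` below `p`. Second, if `N` is a model of ZF that is the extension of
its transitive submodel `V` of ZF by a generic filter for a preordered set with the property
`ccc₃` in `V`, then the first uncountable ordinal of `V` is not countable in `N`. -/
theorem result :
    (∀ (M : Type u) [LSet.Structure M], ZF M → ∀ P le w : M, IsPreorder P le → CCC3 P le →
      IsOmega1 w → ∀ p F : M, ¬ IsCollapseName P le w p F) ∧
    (∀ (N : Type u) [LSet.Structure N] (V : LSet.Substructure N), ZF N → ZF V → IsTrans V →
      ∀ (P le w : V) (G : N), IsPreorder P le → CCC3 P le → IsOmega1 w →
        IsGenericFilter V (P : N) (le : N) G → (∀ x : N, ∃ τ, τ ∈ V ∧ IsValue G τ x) →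
          ¬ IsCountable (w : N)) := by
  refine ⟨?_, ?_⟩
  · intro M _ hM P le w hP hc hw p F h
    haveI := hM.toZermelo
    exact Pool.Agent.Q212.ZD.no_name hM.foundation hP hc hw h
  · intro N _ V hN hV htr P le w G hP hc hw hG hgen
    haveI := hN.toZermelo
    haveI := hV.toZermelo
    exact Pool.Agent.Q212.ZD.no_generic hN hV htr hP hc hw hG hgen

end Pool.Agent.Results.MP_6e04fb_lc.NoCollapse
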